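import Pool.Agent.Helper88.SE.Q_main2
import Pool.Agent.Helper88.SE.P_main22
import Pool.Agent.Helper88.SE.P_Em2_low
import Pool.Agent.Helper88.SE3.P_hz_exp
import Pool.Agent.Helper88.SE3.P_hz_coeff
import Pool.Agent.Helper88.SE3.P_fin2

set_option autoImplicit false
open MeasureTheory Filter Topology Asymptotics HurwitzZeta

namespace Pool.Agent.Results.MP_a619ca_an.LimitAtMostHexagonal

/-- The limit of `N^(-2) (E_2(S²; N) - N² log N / 4)` exists and is at most the conjectured value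
`C_{2,2} = (γ - log(2√3π))/4 + √3/(4π) (γ₁(2/3) - γ₁(1/3))`; the numbers `d₁ = γ₁(1/3)` and
`d₂ = γ₁(2/3)` are given by the Laurent expansion of the Hurwitz zeta function at `s = 1`. -/
theorem result :
    ∃ c₁ c₂ d₁ d₂ : ℝ,
      (fun s : ℂ => hurwitzZeta ((1 / 3 : ℝ) : UnitAddCircle) s - 1 / (s - 1)
          - (c₁ : ℂ) - (d₁ : ℂ) * (1 - s)) =o[𝓝[≠] (1 : ℂ)] (fun s : ℂ => s - 1) ∧
      (fun s : ℂ => hurwitzZeta ((2 / 3 : ℝ) : UnitAddCircle) s - 1 / (s - 1)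
          - (c₂ : ℂ) - (d₂ : ℂ) * (1 - s)) =o[𝓝[≠] (1 : ℂ)] (fun s : ℂ => s - 1) ∧
      ∃ L : ℝ, L ≤ (1 / 4 : ℝ) * (Real.eulerMascheroniConstant
                  - Real.log (2 * Real.sqrt 3 * Real.pi))
                + Real.sqrt 3 / (4 * Real.pi) * (d₂ - d₁) ∧
        Tendsto
          (fun N : ℕ =>
            (sInf {e : ℝ | ∃ x : Fin N → EuclideanSpace ℝ (Fin 3),
                  Function.Injective x ∧ (∀ i, ‖x i‖ = 1) ∧
                  e = ∑ i, ∑ j ∈ Finset.univ.erase i, (‖x i - x j‖ ^ 2)⁻¹}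
              - (1 / 4 : ℝ) * (N : ℝ) ^ 2 * Real.log (N : ℝ)) / (N : ℝ) ^ 2)
          atTop (𝓝 L) := by
  obtain ⟨c₁, d₁, h1⟩ := Pool.Agent.Helper88.SE.hz_exp (1 / 3) (by norm_num) (by norm_num)
  obtain ⟨c₂, d₂, h2⟩ := Pool.Agent.Helper88.SE.hz_exp (2 / 3) (by norm_num) (by norm_num)
  refine ⟨c₁, c₂, d₁, d₂, h1, h2, ?_⟩
  have hd := Pool.Agent.Helper88.SE.hz_coeff c₁ c₂ d₁ d₂ h1 h2
  obtain ⟨C, hC⟩ := Pool.Agent.Helper88.SE.main22
  have hup := Pool.Agent.Helper88.SE.fin2 C hC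
  rw [← hd] at hup
  refine ⟨C, hup, ?_⟩
  have hset : ∀ N : ℕ, {e : ℝ | ∃ x : Fin N → Pool.Agent.Helper88.SE.S 2, Function.Injective x ∧
        e = Pool.Agent.Helper88.SE.En 2 x} =
      {e : ℝ | ∃ x : Fin N → EuclideanSpace ℝ (Fin 3),
            Function.Injective x ∧ (∀ i, ‖x i‖ = 1) ∧
            e = ∑ i, ∑ j ∈ Finset.univ.erase i, (‖x i - x j‖ ^ 2)⁻¹} := by
    intro N
    have hen : ∀ x : Fin N → Pool.Agent.Helper88.SE.S 2, Pool.Agent.Helper88.SE.En 2 x =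
        ∑ i, ∑ j ∈ Finset.univ.erase i,
          (‖(x i : EuclideanSpace ℝ (Fin 3)) - (x j : EuclideanSpace ℝ (Fin 3))‖ ^ 2)⁻¹ := by
      intro x
      rw [Pool.Agent.Helper88.SE.En_eq 2 (by norm_num) x]
      refine Finset.sum_congr rfl fun i _ => Finset.sum_congr rfl fun j _ => ?_
      rw [Real.rpow_neg (norm_nonneg _), Real.rpow_two]
    ext e
    constructor
    · rintro ⟨x, hx, rfl⟩
      refine ⟨fun i => (x i : EuclideanSpace ℝ (Fin 3)), ?_, fun i => ?_, hen x⟩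
      · intro i j hij
        exact hx (Subtype.ext hij)
      · exact mem_sphere_zero_iff_norm.1 (x i).2
    · rintro ⟨x, hx, h1, rfl⟩
      refine ⟨fun i => ⟨x i, mem_sphere_zero_iff_norm.2 (h1 i)⟩, ?_, ?_⟩
      · intro i j hij
        exact hx (congrArg Subtype.val hij)
      · rw [hen]
  refine hC.congr' ?_
  filter_upwards [Filter.eventually_ge_atTop 1] with N hN
  have hN0 : (0 : ℝ) < N := by exact_mod_cast hN
  unfold Pool.Agent.Helper88.SE.Em
  rw [hset N]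
  field_simp

end Pool.Agent.Results.MP_a619ca_an.LimitAtMostHexagonal
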